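import Pool.Agent.Helper124_LShape.Extract

set_option autoImplicit false

/-! L-shaped embeddings of trees of maximum degree three in which, for a suitable root,
every vertex has at most one child of degree three. -/

namespace Pool.Agent.Results.MP_60c1a7_co.ThinBranch

open Pool.Agent.Helper124

/-- Let `T` be a tree on `n` vertices of maximum degree at most 3 and `ρ` a vertex of degree at
most 2 such that, when `T` is rooted at `ρ`, no vertex has two different children of degree 3.
Then `T` has an L-shaped embedding on every set of `n` points with distinct x- and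
y-coordinates. -/
theorem result (n : ℕ) (T : SimpleGraph (Fin n)) (hT : T.IsTree)
    (hdeg : ∀ v, (T.neighborSet v).ncard ≤ 3)
    (ρ : Fin n) (hρ : (T.neighborSet ρ).ncard ≤ 2)
    (hcls : ∀ v a b, T.Adj v a → T.Adj v b → a ≠ b →
      T.dist ρ a = T.dist ρ v + 1 → T.dist ρ b = T.dist ρ v + 1 →
      (T.neighborSet a).ncard ≤ 2 ∨ (T.neighborSet b).ncard ≤ 2) :
    ∀ P : Finset (ℝ × ℝ), P.card = n →
      (∀ p ∈ P, ∀ q ∈ P, p ≠ q → p.1 ≠ q.1 ∧ p.2 ≠ q.2) →
      ∃ (f : Fin n → ℝ × ℝ) (c : Fin n → Fin n → ℝ × ℝ),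
        Function.Injective f ∧ (∀ i, f i ∈ P) ∧
        (∀ u v, T.Adj u v → c u v = c v u ∧
            (c u v = ((f u).1, (f v).2) ∨ c u v = ((f v).1, (f u).2))) ∧
        (∀ u v w, T.Adj u v → w ≠ u → w ≠ v →
            f w ∉ segment ℝ (f u) (c u v) ∪ segment ℝ (c u v) (f v)) ∧
        (∀ u v u' v', T.Adj u v → T.Adj u' v' →
            ¬ (u = u' ∧ v = v') → ¬ (u = v' ∧ v = u') →
            (segment ℝ (f u) (c u v) ∪ segment ℝ (c u v) (f v)) ∩
              (segment ℝ (f u') (c u' v') ∪ segment ℝ (c u' v') (f v'))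
              ⊆ ({f u, f v} ∩ {f u', f v'} : Set (ℝ × ℝ))) := by
  intro P hPn hP
  -- number of children is at most degree minus one away from the root
  have hch : ∀ v, v ≠ ρ → {w | Ch T ρ v w}.ncard + 1 ≤ (T.neighborSet v).ncard := by
    intro v hv
    obtain ⟨u, hu, hd⟩ := tree_exists_parent hT ρ v hv
    have hsub : insert u {w | Ch T ρ v w} ⊆ T.neighborSet v := by
      intro w hw
      rcases hw with rfl | hw
      · exact hu.symm
      · exact hw.1
    have hnot : u ∉ {w | Ch T ρ v w} := by
      intro h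
      have := h.2; omega
    have h1 := Set.ncard_le_ncard hsub (Set.toFinite _)
    rw [Set.ncard_insert_of_notMem hnot (Set.toFinite _)] at h1
    exact h1
  have hch2 : ∀ v, {w | Ch T ρ v w}.ncard ≤ 2 := by
    intro v
    by_cases hv : v = ρ
    · subst hv
      refine le_trans (Set.ncard_le_ncard ?_ (Set.toFinite _)) hρ
      intro w hw
      exact hw.1
    · have := hch v hv; have := hdeg v; omega
  obtain ⟨t, ht, t1, t2, t3, t4, t5⟩ := exists_bt hT ρ hch2 (by
    intro v a b ha hb hab
    have hne : ∀ x, Ch T ρ v x → x ≠ ρ := by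
      intro x hx h
      subst h
      have := hx.2
      simp at this
    rcases hcls v a b ha.1 hb.1 hab ha.2 hb.2 with h | h
    · left; have := hch a (hne a ha); omega
    · right; have := hch b (hne b hb); omega)
    (Finset.univ.sup (fun v => T.dist ρ v))
    (fun v => Finset.le_sup (f := fun v => T.dist ρ v) (Finset.mem_univ v)) _ ρ le_rfl
  refine extract T t t1 (fun v => (t2 v).mpr (desc_root hT ρ v)) ?_ (main_induct t t4).1 P hPn hP
  intro u v huv
  rcases hT.dist_eq_dist_add_one_of_adj ρ huv with h | h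
  · exact Or.inr (t3 v u (desc_root hT ρ v) ⟨huv.symm, h⟩)
  · exact Or.inl (t3 u v (desc_root hT ρ u) ⟨huv, h⟩)

end Pool.Agent.Results.MP_60c1a7_co.ThinBranch
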